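import Mathlib

set_option autoImplicit false

open MvPolynomial Filter Topology

namespace Pool.Agent.Results.MP_ad771b_al.Slope

/-- Primes associated to all large powers of `I`. -/
def AssInf {R : Type*} [CommRing R] (I : Ideal R) : Set (Ideal R) :=
  {p | ∀ᶠ k in atTop, p.IsPrime ∧ ∃ f, (I ^ k).colon {f} = p}

/-- The local v-number. -/
noncomputable def vloc {K : Type*} [Field K] {n : ℕ} (I p : Ideal (MvPolynomial (Fin n) K)) : ℕ :=
  sInf {d | ∃ f : MvPolynomial (Fin n) K, f.IsHomogeneous d ∧ I.colon {f} = p}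

/-- The initial degree. -/
noncomputable def alpha {K : Type*} [Field K] {n : ℕ} (I : Ideal (MvPolynomial (Fin n) K)) : ℕ :=
  sInf {d | ∃ f ∈ I, f ≠ 0 ∧ f.IsHomogeneous d}

section
variable {K : Type*} [Field K]

noncomputable def ord (w : Fin 4 → ℕ) (f : MvPolynomial (Fin 4) K) : ℕ∞ :=
  (f : MvPowerSeries (Fin 4) K).weightedOrder w

theorem ord_mul (w : Fin 4 → ℕ) (f g : MvPolynomial (Fin 4) K) :
    ord w (f * g) = ord w f + ord w g := by
  simp only [ord, coe_mul, MvPowerSeries.weightedOrder_mul]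

theorem ord_monomial (w : Fin 4 → ℕ) (m : Fin 4 →₀ ℕ) :
    ord w (monomial m (1 : K)) = (m 0 * w 0 + m 1 * w 1 + m 2 * w 2 + m 3 * w 3 : ℕ) := by
  rw [ord, coe_monomial, MvPowerSeries.weightedOrder_monomial_of_ne_zero _ one_ne_zero,
    Finsupp.weight_apply, Finsupp.sum_fintype _ _ (by simp), Fin.sum_univ_four]
  rfl

theorem ord_X (w : Fin 4 → ℕ) (i : Fin 4) : ord w (X i : MvPolynomial (Fin 4) K) = w i := by
  rw [X, ord_monomial]
  fin_cases i <;> simp

theorem le_ord (w : Fin 4 → ℕ) (n : ℕ) (f : MvPolynomial (Fin 4) K) : n ≤ ord w f ↔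
    ∀ m ∈ f.support, n ≤ m 0 * w 0 + m 1 * w 1 + m 2 * w 2 + m 3 * w 3 := by
  have e : ∀ m : Fin 4 →₀ ℕ,
      Finsupp.weight w m = m 0 * w 0 + m 1 * w 1 + m 2 * w 2 + m 3 * w 3 := fun m => by
    rw [Finsupp.weight_apply, Finsupp.sum_fintype _ _ (by simp), Fin.sum_univ_four]
    rfl
  refine ⟨fun h m hm => ?_, fun h => MvPowerSeries.nat_le_weightedOrder _ fun m hm => ?_⟩
  · rw [← e]
    exact_mod_cast h.trans (MvPowerSeries.weightedOrder_le w (mem_support_iff.1 hm))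
  · by_contra h0
    exact (h m (mem_support_iff.2 h0)).not_gt (e m ▸ hm)

noncomputable def D (w : Fin 4 → ℕ) (n : ℕ) : Ideal (MvPolynomial (Fin 4) K) where
  carrier := {f | n ≤ ord w f}
  zero_mem' := (le_ord _ _ _).2 (by simp)
  add_mem' := fun {f g} hf hg => by
    change _ ≤ ord w (f + g)
    rw [ord, coe_add]
    exact (le_min hf hg).trans (MvPowerSeries.min_weightedOrder_le_add w)
  smul_mem' c f hf := by
    change _ ≤ ord w (c * f)
    rw [ord_mul]
    exact le_add_left hf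

theorem pow_le_D (w : Fin 4 → ℕ) (c : ℕ) (I : Ideal (MvPolynomial (Fin 4) K)) (h : I ≤ D w c)
    (k : ℕ) : I ^ k ≤ D w (k * c) := by
  induction k with
  | zero => exact fun f _ => by simp [D]
  | succ k ih =>
    rw [pow_succ, Ideal.mul_le]
    intro f hf g hg
    change _ ≤ ord w (f * g)
    rw [ord_mul, add_mul, one_mul, Nat.cast_add]
    exact add_le_add (ih hf) (h hg)

noncomputable def I : Ideal (MvPolynomial (Fin 4) K) :=
  Ideal.span {X 0 * X 1, X 0 * (X 3 * X 3), X 1 * (X 2 * X 2)}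

theorem mem_pow (k : ℕ) (f : MvPolynomial (Fin 4) K) : f ∈ I ^ k ↔ (k : ℕ) ≤ ord ![1, 1, 0, 0] f ∧
    (k * 2 : ℕ) ≤ ord ![2, 0, 1, 0] f ∧ (k * 2 : ℕ) ≤ ord ![0, 2, 0, 1] f := by
  constructor
  · intro h
    refine ⟨(mul_one k).symm ▸ pow_le_D _ 1 I ?_ k h, pow_le_D _ 2 I ?_ k h,
      pow_le_D _ 2 I ?_ k h⟩ <;> rw [I, Ideal.span_le] <;> rintro _ (rfl | rfl | rfl) <;>
      simp [D, ord_mul, ord_X, one_add_one_eq_two]
  · simp only [le_ord]
    rintro ⟨h1, h2, h3⟩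
    rw [f.as_sum]
    refine Ideal.sum_mem _ fun m hm => ?_
    have h1 := h1 m hm
    have h2 := h2 m hm
    have h3 := h3 m hm
    simp only [Matrix.cons_val_zero, Matrix.cons_val_one, Matrix.cons_val] at h1 h2 h3
    obtain ⟨i, j, l, rfl, e⟩ : ∃ i j l, k = i + j + l ∧ i + j ≤ m 0 ∧ i + l ≤ m 1 ∧ 2 * l ≤ m 2 ∧
      2 * j ≤ m 3 := ⟨min (m 0) k + min (m 1) k - k, k - min (m 1) k, k - min (m 0) k, by omega⟩
    have : monomial m (coeff m f) = C (coeff m f) * (X 0 ^ (m 0 - (i + j)) * X 1 ^ (m 1 - (i + l)) *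
        X 2 ^ (m 2 - 2 * l) * X 3 ^ (m 3 - 2 * j)) *
        ((X 0 * X 1) ^ i * (X 0 * (X 3 * X 3)) ^ j * (X 1 * (X 2 * X 2)) ^ l) := by
      rw [monomial_eq, Finsupp.prod_fintype _ _ (by simp), Fin.prod_univ_four]
      obtain ⟨a, ha⟩ := Nat.exists_eq_add_of_le e.1
      obtain ⟨b, hb⟩ := Nat.exists_eq_add_of_le e.2.1
      obtain ⟨c, hc⟩ := Nat.exists_eq_add_of_le e.2.2.1
      obtain ⟨d, hd⟩ := Nat.exists_eq_add_of_le e.2.2.2
      simp only [ha, hb, hc, hd, Nat.add_sub_cancel_left]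
      ring
    rw [this, pow_add, pow_add]
    refine Ideal.mul_mem_left _ _ (Ideal.mul_mem_mul (Ideal.mul_mem_mul ?_ ?_) ?_) <;>
      exact Ideal.pow_mem_pow (Ideal.subset_span (by simp)) _

theorem mem_p (g : MvPolynomial (Fin 4) K) :
    g ∈ Ideal.span {X 0, X 1} ↔ 1 ≤ ord ![1, 1, 0, 0] g := by
  rw [← Set.image_pair, mem_ideal_span_X_image, ← Nat.cast_one, le_ord]
  refine forall₂_congr fun m _ => ?_
  simp only [Set.mem_insert_iff, Set.mem_singleton_iff, exists_eq_or_imp, exists_eq_left,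
    Matrix.cons_val_zero, Matrix.cons_val_one, Matrix.cons_val]
  omega

theorem p_prime : (Ideal.span {X 0, X 1} : Ideal (MvPolynomial (Fin 4) K)).IsPrime := by
  refine ⟨fun h => ?_, fun {f g} h => ?_⟩
  · have := (mem_p (K := K) (monomial 0 1)).1 (h ▸ trivial)
    rw [ord_monomial] at this
    simp at this
  · simp only [mem_p, ord_mul, Order.one_le_iff_pos] at h ⊢
    exact add_pos_iff.1 h

theorem colon_eq (k : ℕ) (f : MvPolynomial (Fin 4) K) (h1 : ord ![1, 1, 0, 0] f = k)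
    (h2 : ((k + 1) * 2 : ℕ) ≤ ord ![2, 0, 1, 0] f) (h3 : ((k + 1) * 2 : ℕ) ≤ ord ![0, 2, 0, 1] f) :
    (I ^ (k + 1)).colon {f} = Ideal.span {X 0, X 1} := by
  ext g
  rw [Submodule.mem_colon_singleton, smul_eq_mul, mem_pow, mem_p, ord_mul, ord_mul, ord_mul,
    and_iff_left ⟨le_add_left h2, le_add_left h3⟩, h1, Nat.cast_add, add_comm,
    ENat.add_le_add_iff_right (ENat.natCast_ne_top k), Nat.cast_one]

theorem of_le (k : ℕ) (f : MvPolynomial (Fin 4) K)
    (h : Ideal.span {X 0, X 1} ≤ (I ^ (k + 1)).colon {f}) (h' : (I ^ (k + 1)).colon {f} ≠ ⊤) :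
    ord ![1, 1, 0, 0] f = k ∧ ((k + 1) * 2 : ℕ) ≤ ord ![2, 0, 1, 0] f ∧
      ((k + 1) * 2 : ℕ) ≤ ord ![0, 2, 0, 1] f := by
  have h0 := h (Ideal.subset_span (Set.mem_insert _ _))
  have h1 := h (Ideal.subset_span (Set.mem_insert_of_mem _ rfl))
  rw [Ne, Ideal.eq_top_iff_one] at h'
  rw [Submodule.mem_colon_singleton, smul_eq_mul, mem_pow] at h0 h1 h'
  simp only [ord_mul, ord_X, Matrix.cons_val_zero, Matrix.cons_val_one, Nat.cast_zero, zero_add,
    one_mul] at h0 h1 h'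
  refine ⟨le_antisymm ?_ ?_, h1.2.1, h0.2.2⟩
  · rw [and_iff_left ⟨h1.2.1, h0.2.2⟩, not_le, Nat.cast_add, Nat.cast_one] at h'
    exact Order.le_of_lt_add_one h'
  · have := h0.1
    rwa [Nat.cast_add, add_comm, ENat.add_le_add_iff_left (ENat.natCast_ne_top 1)] at this

end

/-- A maximal stable prime whose local v-numbers grow faster than the initial degree. -/
theorem result (K : Type*) [Field K] : ∃ (n : ℕ) (s : Set (MvPolynomial (Fin n) K))
    (I p : Ideal (MvPolynomial (Fin n) K)), (∀ f ∈ s, ∃ d, f.IsHomogeneous d) ∧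
    I = Ideal.span s ∧ I ≠ ⊥ ∧ I ≠ ⊤ ∧ Maximal (· ∈ AssInf I) p ∧ alpha I = 2 ∧
    Tendsto (fun k : ℕ => (vloc (I ^ k) p : ℝ) / k) atTop (𝓝 3) := by
  have hX := isHomogeneous_X (σ := Fin 4) K
  have h1 := fun f => pow_one (I (K := K)) ▸ mem_pow (K := K) 1 f
  have h0 : X 0 * X 1 ∈ I (K := K) := Ideal.subset_span (by simp)
  let m : ℕ → Fin 4 →₀ ℕ := fun k => Finsupp.equivFunOnFinite.symm ![k, 0, 2, 2 * (k + 1)]
  have hm : ∀ k, (I ^ (k + 1)).colon {monomial (m k) (1 : K)} = Ideal.span {X 0, X 1} := fun k =>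
    colon_eq k _ (by simp [ord_monomial, m])
      (by rw [ord_monomial, Nat.cast_le]; simp [m]; omega)
      (by rw [ord_monomial, Nat.cast_le]; simp [m]; omega)
  have hdeg : ∀ m : Fin 4 →₀ ℕ, m.degree = m 0 + m 1 + m 2 + m 3 := fun m => by
    rw [Finsupp.degree_eq_sum, Fin.sum_univ_four]
  refine ⟨4, _, I, Ideal.span {X 0, X 1}, ?_, rfl, fun h => ?_, fun h => ?_, ⟨?_, fun q hq hle => ?_⟩,
    le_antisymm (Nat.sInf_le ⟨_, h0, by simp, (hX 0).mul (hX 1)⟩) ?_, ?_⟩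
  · rintro _ (rfl | rfl | rfl)
    exacts [⟨_, (hX 0).mul (hX 1)⟩, ⟨_, (hX 0).mul ((hX 3).mul (hX 3))⟩,
      ⟨_, (hX 1).mul ((hX 2).mul (hX 2))⟩]
  · simp [h] at h0
  · have := ((h1 (monomial 0 1)).1 (h ▸ trivial)).1
    rw [ord_monomial] at this
    simp at this
  · filter_upwards [eventually_ge_atTop 1] with k hk
    obtain ⟨k, rfl⟩ := Nat.exists_eq_add_of_le' hk
    exact ⟨p_prime, _, hm k⟩
  · obtain ⟨k, ⟨hq, f, rfl⟩, hk⟩ := (hq.and (eventually_ge_atTop 1)).exists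
    obtain ⟨k, rfl⟩ := Nat.exists_eq_add_of_le' hk
    obtain ⟨a, b, c⟩ := of_le k f hle hq.ne_top
    exact (colon_eq k f a b c).le
  · refine le_csInf ⟨_, _, h0, by simp, (hX 0).mul (hX 1)⟩ ?_
    rintro d ⟨f, hf, hf0, hd⟩
    obtain ⟨t, ht⟩ := support_nonempty.2 hf0
    obtain ⟨a, b, c⟩ := (h1 f).1 hf
    have a := (le_ord _ _ _).1 a t ht
    have b := (le_ord _ _ _).1 b t ht
    have c := (le_ord _ _ _).1 c t ht
    have e : t.degree = d := by
      by_contra e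
      exact mem_support_iff.1 ht (hd.coeff_eq_zero e)
    simp only [Matrix.cons_val_zero, Matrix.cons_val_one, Matrix.cons_val, hdeg] at a b c e
    omega
  · have hv : ∀ k, vloc (I ^ (k + 1)) (Ideal.span {X 0, X 1} : Ideal (MvPolynomial (Fin 4) K)) =
        3 * (k + 1) + 1 := fun k => by
      have h2 : (monomial (m k) (1 : K)).IsHomogeneous (3 * (k + 1) + 1) :=
        isHomogeneous_monomial _ (by simp [hdeg, m]; omega)
      refine le_antisymm (Nat.sInf_le ⟨_, h2, hm k⟩) (le_csInf ⟨_, _, h2, hm k⟩ ?_)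
      rintro d ⟨f, hd, hf⟩
      obtain ⟨a, b, c⟩ := of_le k f hf.ge (hf ▸ p_prime.ne_top)
      have a : ¬ ((k + 1 : ℕ) : ℕ∞) ≤ ord ![1, 1, 0, 0] f := by
        rw [a, Nat.cast_le]
        omega
      rw [le_ord] at a
      push Not at a
      obtain ⟨t, ht, a⟩ := a
      have b := (le_ord _ _ _).1 b t ht
      have c := (le_ord _ _ _).1 c t ht
      have e : t.degree = d := by
        by_contra e
        exact mem_support_iff.1 ht (hd.coeff_eq_zero e)
      simp only [Matrix.cons_val_zero, Matrix.cons_val_one, Matrix.cons_val, hdeg] at a b c e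
      omega
    have h2 := (tendsto_one_div_atTop_nhds_zero_nat (𝕜 := ℝ)).const_add 3
    rw [add_zero] at h2
    refine h2.congr' ?_
    filter_upwards [eventually_ge_atTop 1] with k hk
    obtain ⟨k, rfl⟩ := Nat.exists_eq_add_of_le' hk
    rw [hv]
    push_cast
    field_simp

end Pool.Agent.Results.MP_ad771b_al.Slope
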